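import Pool.Agent.helper70.BND.SpecH

/-!
# Project bnd (MP_376aaf_an), block H, row PSY
-/

set_option autoImplicit false

open scoped Topology
open Finset

namespace Pool.Agent.BND.EX

/-- **PSY**. -/
theorem PSY : PSY_stmt := by
  rintro l Q w w' d vs ⟨γ, h⟩
  have hU : ∀ s ∈ U, (1 - s) ∈ U := by
    rintro s ⟨h0, h1⟩
    exact ⟨by linarith, by linarith⟩
  have hmap : Set.MapsTo (fun s : ℝ => 1 - s) U U := fun s hs => hU s hs
  have hcont : ContinuousOn (fun s : ℝ => 1 - s) U := (continuous_const.sub continuous_id).continuousOn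
  refine ⟨fun s => γ (1 - s), ?_⟩
  refine ⟨fun s hs => h.q _ (hU s hs), fun s hs => (h.ht _ (hU s hs)).trans h.ht'.symm, h.ht'.symm,
    fun Φ hΦ i hi => ?_, fun Φ hΦ i hi => ?_, fun Φ hΦ i hi => ?_, fun a ha => ?_, fun lam nn hl => ?_⟩
  · rw [h.ht'] at hi
    exact (h.cts Φ hΦ i hi).comp hcont hmap
  · rw [h.ht'] at hi
    have h1 := h.at1 Φ hΦ i hi
    show fw l.h Φ (γ (1 - 0)) i = fw l.h Φ w' i
    rw [sub_zero]
    exact h1
  · rw [h.ht'] at hi
    have h1 := h.at0 Φ hΦ i hi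
    show fw l.h Φ (γ (1 - 1)) i = fw l.h Φ w i
    rw [sub_self]
    exact h1
  · obtain ⟨s, hs, hm⟩ := h.vis a ha
    refine ⟨1 - s, hU s hs, ?_⟩
    show a ∈ γ (1 - (1 - s))
    rw [sub_sub_cancel]
    exact hm
  · obtain ⟨Lam, hc, he, h0, h1⟩ := h.lg lam nn hl
    refine ⟨fun s => Lam (1 - s) -
      2 * Real.pi * Complex.I * ((∑ e ∈ range l.N, d e * nn e : ℤ) : ℂ), ?_, ?_, ?_, ?_⟩
    · exact (hc.comp hcont hmap).sub continuousOn_const
    · intro s hs
      have h2 : 2 * Real.pi * Complex.I * ((∑ e ∈ range l.N, d e * nn e : ℤ) : ℂ) =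
          ((∑ e ∈ range l.N, d e * nn e : ℤ) : ℂ) * (2 * Real.pi * Complex.I) := by ring
      show Complex.exp (Lam (1 - s) -
        2 * Real.pi * Complex.I * ((∑ e ∈ range l.N, d e * nn e : ℤ) : ℂ)) = _
      rw [Complex.exp_sub, h2, Complex.exp_int_mul_two_pi_mul_I, div_one]
      exact he _ (hU s hs)
    · show Lam (1 - 0) - 2 * Real.pi * Complex.I * ((∑ e ∈ range l.N, d e * nn e : ℤ) : ℂ) =
        sw lam w'
      rw [sub_zero, h1]
      ring
    · show Lam (1 - 1) - 2 * Real.pi * Complex.I * ((∑ e ∈ range l.N, d e * nn e : ℤ) : ℂ) =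
        sw lam w + 2 * Real.pi * Complex.I * ((∑ e ∈ range l.N, -d e * nn e : ℤ) : ℂ)
      have h3 : ∑ e ∈ range l.N, -d e * nn e = -∑ e ∈ range l.N, d e * nn e := by
        rw [← Finset.sum_neg_distrib]
        exact Finset.sum_congr rfl fun e _ => by ring
      rw [sub_self, h0, h3]
      push_cast
      ring

end Pool.Agent.BND.EX
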